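import Mathlib

set_option autoImplicit false

namespace Pool.Agent.MP_1fb45e

/-- Abstract uncrossing lemma.  `ι` is the type of classes (circuits), `N` the set of relevant
classes, `inc v D` means that the vertex `v` lies on `D`.  `h3` says that the intersection
multigraph has no edge-cut contained in two vertices. -/
theorem uncross {ι W : Type} [Finite ι] (N : Set ι) (inc : W → ι → Prop) (X0 : Set ι)
    (hX0 : X0 ⊆ N)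
    (h3 : ∀ (Y : Set ι) (e e' : W), (∃ D ∈ N, D ∈ Y) → (∃ D ∈ N, D ∉ Y) →
      ∃ v, v ≠ e ∧ v ≠ e' ∧ ∃ D₁ ∈ N, ∃ D₂ ∈ N, inc v D₁ ∧ inc v D₂ ∧ D₁ ∈ Y ∧ D₂ ∉ Y)
    (hne : ∃ D ∈ N, D ∉ X0)
    (hbad : ∀ D ∈ N, D ∉ X0 → ∃ (e : W) (K : Set ι), K ⊆ N ∧ K.Nonempty ∧ D ∉ K ∧
      (∀ D' ∈ K, D' ∉ X0) ∧ (∃ D' ∈ N, D' ∉ K ∧ D' ≠ D) ∧
      ∀ v, ∀ D₁ ∈ K, ∀ D₂ ∈ N, D₂ ∉ K → D₂ ≠ D → inc v D₁ → inc v D₂ → v = e) : False := by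
  classical
  set Bad : ι → W → Set ι → Prop := fun D e K => D ∈ N ∧ D ∉ X0 ∧ K ⊆ N ∧ K.Nonempty ∧ D ∉ K ∧
      (∀ D' ∈ K, D' ∉ X0) ∧ (∃ D' ∈ N, D' ∉ K ∧ D' ≠ D) ∧
      ∀ v, ∀ D₁ ∈ K, ∀ D₂ ∈ N, D₂ ∉ K → D₂ ≠ D → inc v D₁ → inc v D₂ → v = e with hBad
  have hex : ∃ k, ∃ D e K, Bad D e K ∧ K.ncard = k := by
    obtain ⟨D, hD, hDX⟩ := hne
    obtain ⟨e, K, h⟩ := hbad D hD hDX
    exact ⟨K.ncard, D, e, K, ⟨hD, hDX, h⟩, rfl⟩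
  obtain ⟨D, e, K, hB, hk⟩ := Nat.find_spec hex
  have hmin : ∀ D' e' K', Bad D' e' K' → K.ncard ≤ K'.ncard := fun D' e' K' h => by
    rw [hk]; exact Nat.find_min' hex ⟨D', e', K', h, rfl⟩
  obtain ⟨hDN, hDX, hKN, hKne, hDK, hKX, hR, hK⟩ := hB
  obtain ⟨D', hD'K⟩ := hKne
  obtain ⟨e', K', hK'⟩ := hbad D' (hKN hD'K) (hKX D' hD'K)
  have hB' : Bad D' e' K' := ⟨hKN hD'K, hKX D' hD'K, hK'⟩
  have key : ∀ K'', Bad D' e' K'' → D ∈ K'' := by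
    intro K'' hB''
    by_contra hD
    obtain ⟨-, -, hK''N, -, hD'K'', hK''X, hR'', hK''⟩ := id hB''
    by_cases hsub : K'' ⊆ K
    · have hlt : K''.ncard < K.ncard :=
        Set.ncard_lt_ncard ⟨hsub, fun h => hD'K'' (h hD'K)⟩
      exact absurd (hmin _ _ _ hB'') (not_le.mpr hlt)
    · obtain ⟨D1, hD1, hD1K⟩ := Set.not_subset.mp hsub
      obtain ⟨v, hve, hve', A, hA, B, hB, hiA, hiB, hAY, hBY⟩ :=
        h3 (K'' \ K) e e' ⟨D1, hK''N hD1, hD1, hD1K⟩ ⟨D, hDN, fun h => hD h.1⟩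
      obtain ⟨hAK'', hAK⟩ := hAY
      by_cases hBK : B ∈ K
      · have hAD : A ≠ D := fun h => hD (h ▸ hAK'')
        exact hve (hK v B hBK A hA hAK hAD hiB hiA)
      · have hBK'' : B ∉ K'' := fun h => hBY ⟨h, hBK⟩
        have hBD' : B ≠ D' := fun h => hBK (h ▸ hD'K)
        exact hve' (hK'' v A hAK'' B hB hBK'' hBD' hiA hiB)
  have hDK' : D ∈ K' := key K' hB'
  obtain ⟨-, -, hK'N, hK'ne, hD'K', hK'X, hR', hK'c⟩ := id hB'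
  by_cases hX : X0.Nonempty
  · obtain ⟨y, hy⟩ := hX
    obtain ⟨v, hve, hve', A, hA, B, hB, hiA, hiB, hAY, hBY⟩ :=
      h3 (K ∪ K') e e' ⟨D', hKN hD'K, Or.inl hD'K⟩
        ⟨y, hX0 hy, fun h => h.elim (fun h => hKX y h hy) (fun h => hK'X y h hy)⟩
    have hBK : B ∉ K := fun h => hBY (Or.inl h)
    have hBK' : B ∉ K' := fun h => hBY (Or.inr h)
    rcases hAY with hAK | hAK'
    · exact hve (hK v A hAK B hB hBK (fun h => hBK' (h ▸ hDK')) hiA hiB)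
    · exact hve' (hK'c v A hAK' B hB hBK' (fun h => hBK (h ▸ hD'K)) hiA hiB)
  · have hsw : Bad D' e' {A | A ∈ N ∧ A ∉ K' ∧ A ≠ D'} := by
      refine ⟨hKN hD'K, hKX D' hD'K, fun A hA => hA.1, ?_, fun h => h.2.2 rfl, ?_, ?_, ?_⟩
      · obtain ⟨A, hA, hAK', hAD'⟩ := hR'
        exact ⟨A, hA, hAK', hAD'⟩
      · intro A _ hAX
        exact hX ⟨A, hAX⟩
      · obtain ⟨A, hA⟩ := hK'ne
        exact ⟨A, hK'N hA, fun h => h.2.1 hA, fun h => hD'K' (h ▸ hA)⟩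
      · intro v A hA B hB hBn hBD' hiA hiB
        have hBK' : B ∈ K' := by
          by_contra h
          exact hBn ⟨hB, h, hBD'⟩
        exact hK'c v B hBK' A hA.1 hA.2.1 hA.2.2 hiB hiA
    exact (key _ hsw).2.1 hDK'

end Pool.Agent.MP_1fb45e
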