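import Mathlib
import Pool.Agent.MP_1fb45e.Uncross

set_option autoImplicit false

open SimpleGraph

namespace Pool.Agent.MP_1fb45e

variable {V : Type}

/-- `H - {u, v}` is connected for all vertices `u`, `v` (possibly equal). -/
def NoTwoCut (H : SimpleGraph V) : Prop :=
  ∀ u v a b : V, a ≠ u → a ≠ v → b ≠ u → b ≠ v →
    ∃ p : H.Walk a b, u ∉ p.support ∧ v ∉ p.support

/-- `w` is a cut vertex of `G`. -/
def CutVertex (G : SimpleGraph V) (w : V) : Prop :=
  ∃ a b : V, a ≠ w ∧ b ≠ w ∧ G.Reachable a b ∧ ∀ p : G.Walk a b, w ∈ p.support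

/-- the subgraph of the edges of colour `i` -/
def CG {κ : Type} (H : SimpleGraph V) (c : Sym2 V → κ) (i : κ) : SimpleGraph V where
  Adj a b := H.Adj a b ∧ c s(a, b) = i
  symm := ⟨fun a b h => ⟨h.1.symm, by rw [Sym2.eq_swap]; exact h.2⟩⟩
  loopless := ⟨fun a h => h.1.ne rfl⟩

lemma CG_adj {κ : Type} (H : SimpleGraph V) (c : Sym2 V → κ) (i : κ) (a b : V) :
    (CG H c i).Adj a b ↔ H.Adj a b ∧ c s(a, b) = i := Iff.rfl

/-- Parity step: in a finite graph with all degrees even, if `w` has degree at most two and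
`A` is closed under adjacency except towards `w`, then either no or every neighbour of `w`
lies in `A`. -/
lemma parity_step [Fintype V] (G : SimpleGraph V)
    (hev : ∀ v, Even (G.neighborSet v).ncard) (w : V) (hw : (G.neighborSet w).ncard ≤ 2)
    (A : Set V) (hcl : ∀ a ∈ A, ∀ b, G.Adj a b → b ≠ w → b ∈ A)
    (hex : ∃ a ∈ A, G.Adj w a) : ∀ b, G.Adj w b → b ∈ A := by
  classical
  let G' : SimpleGraph V :=
    { Adj := fun a b => G.Adj a b ∧ (a ∈ A ∨ a = w) ∧ (b ∈ A ∨ b = w)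
      symm := ⟨fun a b h => ⟨h.1.symm, h.2.2, h.2.1⟩⟩
      loopless := ⟨fun a h => h.1.ne rfl⟩ }
  have hdeg : ∀ v, G'.degree v = (G'.neighborSet v).ncard := by
    intro v
    rw [Set.ncard_eq_toFinset_card', ← SimpleGraph.card_neighborFinset_eq_degree]
    rfl
  have hother : ∀ v, v ≠ w → Even (G'.neighborSet v).ncard := by
    intro v hv
    by_cases hvA : v ∈ A
    · have : G'.neighborSet v = G.neighborSet v := by
        ext b
        simp only [SimpleGraph.mem_neighborSet]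
        constructor
        · exact fun h => h.1
        · intro h
          refine ⟨h, Or.inl hvA, ?_⟩
          by_cases hb : b = w
          · exact Or.inr hb
          · exact Or.inl (hcl v hvA b h hb)
      rw [this]; exact hev v
    · have : G'.neighborSet v = ∅ := by
        ext b
        simp only [SimpleGraph.mem_neighborSet, Set.mem_empty_iff_false, iff_false]
        intro h
        exact h.2.1.elim hvA hv
      rw [this]; simp
  have hwe : Even (G'.neighborSet w).ncard := by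
    by_contra hodd
    rw [Nat.not_even_iff_odd, ← hdeg] at hodd
    obtain ⟨u, hu, hu'⟩ := G'.exists_ne_odd_degree_of_exists_odd_degree w hodd
    rw [hdeg] at hu'
    exact (Nat.not_even_iff_odd.mpr hu') (hother u hu)
  have hsub : G'.neighborSet w ⊆ G.neighborSet w := fun b h => h.1
  obtain ⟨a, haA, hwa⟩ := hex
  have hpos : 0 < (G'.neighborSet w).ncard := by
    rw [Set.ncard_pos (Set.toFinite _)]
    exact ⟨a, hwa, Or.inr rfl, Or.inl haA⟩
  have h2 : 2 ≤ (G'.neighborSet w).ncard := by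
    rcases hwe with ⟨k, hk⟩
    omega
  have heq : G'.neighborSet w = G.neighborSet w :=
    Set.eq_of_subset_of_ncard_le hsub (le_trans hw h2) (Set.toFinite _)
  intro b hb
  have hb' : b ∈ G'.neighborSet w := by rw [heq]; exact hb
  rcases hb'.2.2 with h | h
  · exact h
  · exact absurd (h ▸ hb) (G.irrefl)

/-- closure of a component under removal of a vertex of degree at most two -/
lemma class_closed [Fintype V] (G : SimpleGraph V)
    (hev : ∀ v, Even (G.neighborSet v).ncard) (w : V) (hw : (G.neighborSet w).ncard ≤ 2)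
    (A : Set V) (hcl : ∀ a ∈ A, ∀ b, G.Adj a b → b ≠ w → b ∈ A)
    (z : V) (hz : z ∈ A) (z' : V) (hr : G.Reachable z z') (hz' : z' ≠ w) : z' ∈ A := by
  by_cases hex : ∃ a ∈ A, G.Adj w a
  · have hN := parity_step G hev w hw A hcl hex
    have hclos : ∀ a ∈ A ∪ {w}, ∀ b, G.Adj a b → b ∈ A ∪ {w} := by
      intro a ha b hab
      by_cases hb : b = w
      · exact Or.inr hb
      · rcases ha with ha | ha
        · exact Or.inl (hcl a ha b hab hb)
        · have ha' : a = w := ha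
          subst ha'
          exact Or.inl (hN b hab)
    obtain ⟨p⟩ := hr
    have : ∀ {x y : V} (p : G.Walk x y), x ∈ A ∪ {w} → y ∈ A ∪ {w} := by
      intro x y p
      induction p with
      | nil => exact id
      | cons h _ ih => exact fun hx => ih (hclos _ hx _ h)
    rcases this p (Or.inl hz) with h | h
    · exact h
    · exact absurd h hz'
  · have hclos : ∀ a ∈ A, ∀ b, G.Adj a b → b ∈ A := by
      intro a ha b hab
      by_cases hb : b = w
      · exact absurd ⟨a, ha, (hb ▸ hab).symm⟩ hex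
      · exact hcl a ha b hab hb
    obtain ⟨p⟩ := hr
    have : ∀ {x y : V} (p : G.Walk x y), x ∈ A → y ∈ A := by
      intro x y p
      induction p with
      | nil => exact id
      | cons h _ ih => exact fun hx => ih (hclos _ hx _ h)
    exact this p hz

section Classes

variable {κ : Type} (H : SimpleGraph V) (c : Sym2 V → κ)

/-- A class: a colour together with a component of the subgraph of that colour. -/
abbrev Cls := Σ i : κ, (CG H c i).ConnectedComponent

/-- the vertex `v` lies on the (nontrivial) class `D` -/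
def Inc (v : V) (D : Cls H c) : Prop :=
  (∃ w, (CG H c D.1).Adj v w) ∧ (CG H c D.1).connectedComponentMk v = D.2

/-- the edges of the class `D`, as a graph -/
def ClsGraph (D : Cls H c) : SimpleGraph V where
  Adj a b := (CG H c D.1).Adj a b ∧ (CG H c D.1).connectedComponentMk a = D.2
  symm := ⟨fun a b h => ⟨h.1.symm, by
    rw [← h.2]
    exact (ConnectedComponent.connectedComponentMk_eq_of_adj h.1).symm⟩⟩
  loopless := ⟨fun a h => h.1.ne rfl⟩

/-- the nontrivial classes -/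
def NT : Set (Cls H c) := {D | ∃ v, Inc H c v D}

variable {H c}

lemma inc_of_adj {a b : V} (h : H.Adj a b) :
    Inc H c a ⟨c s(a, b), (CG H c (c s(a, b))).connectedComponentMk a⟩ :=
  ⟨⟨b, h, rfl⟩, rfl⟩

lemma inc_of_adj' {a b : V} (h : H.Adj a b) :
    Inc H c b ⟨c s(a, b), (CG H c (c s(a, b))).connectedComponentMk a⟩ := by
  have h' : (CG H c (c s(a, b))).Adj a b := ⟨h, rfl⟩
  exact ⟨⟨a, h'.symm⟩, (ConnectedComponent.connectedComponentMk_eq_of_adj h').symm⟩

lemma three_vertices [Fintype V] (hev : ∀ i v, Even ((CG H c i).neighborSet v).ncard)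
    (D : Cls H c) (hD : D ∈ NT H c) (e e' : V) : ∃ a, Inc H c a D ∧ a ≠ e ∧ a ≠ e' := by
  obtain ⟨v, ⟨w, hw⟩, hv⟩ := hD
  have hpos : 0 < ((CG H c D.1).neighborSet v).ncard := by
    rw [Set.ncard_pos (Set.toFinite _)]
    exact ⟨w, hw⟩
  have h2 : 1 < ((CG H c D.1).neighborSet v).ncard := by
    rcases hev D.1 v with ⟨k, hk⟩
    omega
  obtain ⟨w', hw', hne⟩ := Set.exists_ne_of_one_lt_ncard h2 w
  have hw'' : (CG H c D.1).Adj v w' := hw'
  have hiv : Inc H c v D := ⟨⟨w, hw⟩, hv⟩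
  have hiw : Inc H c w D :=
    ⟨⟨v, hw.symm⟩, by rw [← hv]; exact (ConnectedComponent.connectedComponentMk_eq_of_adj hw).symm⟩
  have hiw' : Inc H c w' D :=
    ⟨⟨v, hw''.symm⟩, by
      rw [← hv]; exact (ConnectedComponent.connectedComponentMk_eq_of_adj hw'').symm⟩
  have h1 := hw.ne
  have h3 := hw''.ne
  by_cases hve : v = e
  · by_cases hwe : w = e'
    · exact ⟨w', hiw', fun h => h3 (hve.trans h.symm), fun h => hne (h.trans hwe.symm)⟩
    · exact ⟨w, hiw, fun h => h1 (hve.trans h.symm), hwe⟩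
  · by_cases hve' : v = e'
    · by_cases hwe : w = e
      · exact ⟨w', hiw', fun h => hne (h.trans hwe.symm), fun h => h3 (hve'.trans h.symm)⟩
      · exact ⟨w, hiw, hwe, fun h => h1 (hve'.trans h.symm)⟩
    · exact ⟨v, hiv, hve, hve'⟩

/-- 3-edge-connectivity of the intersection multigraph -/
lemma no_small_cut [Fintype V] (h3 : NoTwoCut H)
    (hev : ∀ i v, Even ((CG H c i).neighborSet v).ncard)
    (Y : Set (Cls H c)) (e e' : V) (hY : ∃ D ∈ NT H c, D ∈ Y) (hY' : ∃ D ∈ NT H c, D ∉ Y) :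
    ∃ v, v ≠ e ∧ v ≠ e' ∧ ∃ D₁ ∈ NT H c, ∃ D₂ ∈ NT H c,
      Inc H c v D₁ ∧ Inc H c v D₂ ∧ D₁ ∈ Y ∧ D₂ ∉ Y := by
  by_contra hcon
  push Not at hcon
  obtain ⟨D1, hD1, hD1Y⟩ := hY
  obtain ⟨D2, hD2, hD2Y⟩ := hY'
  obtain ⟨a, ha, hae, hae'⟩ := three_vertices hev D1 hD1 e e'
  obtain ⟨b, hb, hbe, hbe'⟩ := three_vertices hev D2 hD2 e e'
  obtain ⟨p, hpe, hpe'⟩ := h3 e e' a b hae hae' hbe hbe'
  have key : ∀ {x y : V} (p : H.Walk x y), e ∉ p.support → e' ∉ p.support →
      (∀ D, Inc H c x D → D ∈ Y) → (∀ D, Inc H c y D → D ∈ Y) := by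
    intro x y p
    induction p with
    | nil => exact fun _ _ h => h
    | @cons x x' y h q ih =>
      intro h1 h2 hx
      rw [SimpleGraph.Walk.support_cons, List.mem_cons, not_or] at h1 h2
      refine ih h1.2 h2.2 ?_
      have hE : (⟨c s(x, x'), (CG H c (c s(x, x'))).connectedComponentMk x⟩ : Cls H c) ∈ Y :=
        hx _ (inc_of_adj h)
      have hx'e : x' ≠ e := fun hh => h1.2 (hh ▸ q.start_mem_support)
      have hx'e' : x' ≠ e' := fun hh => h2.2 (hh ▸ q.start_mem_support)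
      intro D hD
      exact hcon x' hx'e hx'e' _ ⟨_, inc_of_adj' h⟩ D ⟨_, hD⟩ (inc_of_adj' h) hD hE
  refine hD2Y (key p hpe hpe' ?_ D2 hb)
  intro D hD
  exact hcon a hae hae' D1 hD1 D ⟨_, hD⟩ ha hD hD1Y

lemma cls_eq {D : Cls H c} {z z' : V} (h : (ClsGraph H c D).Adj z z') :
    D = ⟨c s(z, z'), (CG H c (c s(z, z'))).connectedComponentMk z⟩ := by
  obtain ⟨i, C⟩ := D
  obtain ⟨⟨h1, h2⟩, h3⟩ := h
  dsimp only at h2 h3
  subst h2
  rw [h3]

lemma adj_of_eq {D : Cls H c} {z z' : V} (h : H.Adj z z')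
    (hD : (⟨c s(z, z'), (CG H c (c s(z, z'))).connectedComponentMk z⟩ : Cls H c) = D) :
    (ClsGraph H c D).Adj z z' := by
  subst hD
  exact ⟨⟨h, rfl⟩, rfl⟩

/-- A cut vertex `w` of `H - E(D)` gives a separation of the classes. -/
lemma bad_of_cut [Fintype V] (hev : ∀ i v, Even ((CG H c i).neighborSet v).ncard)
    (D : Cls H c) (w : V) (hw : ∀ i, ((CG H c i).neighborSet w).ncard ≤ 2)
    (hcut : CutVertex (H.deleteEdges (ClsGraph H c D).edgeSet) w) :
    ∃ K : Set (Cls H c), K ⊆ NT H c ∧ K.Nonempty ∧ D ∉ K ∧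
      (∃ D' ∈ NT H c, D' ∉ K ∧ D' ≠ D) ∧
      ∀ v, ∀ D₁ ∈ K, ∀ D₂ ∈ NT H c, D₂ ∉ K → D₂ ≠ D → Inc H c v D₁ → Inc H c v D₂ → v = w := by
  obtain ⟨a, b, haw, hbw, hr, hall⟩ := hcut
  set L := H.deleteEdges (ClsGraph H c D).edgeSet with hLdef
  have hLadj : ∀ z z', L.Adj z z' ↔ H.Adj z z' ∧ ¬ (ClsGraph H c D).Adj z z' := by
    intro z z'
    rw [hLdef, SimpleGraph.deleteEdges_adj, SimpleGraph.mem_edgeSet]
  set A : Set V := {z | ∃ p : L.Walk a z, w ∉ p.support} with hA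
  have hwA : w ∉ A := fun ⟨p, hp⟩ => hp p.end_mem_support
  have haA : a ∈ A := ⟨SimpleGraph.Walk.nil, by simpa using haw.symm⟩
  have hclL : ∀ z ∈ A, ∀ z', L.Adj z z' → z' ≠ w → z' ∈ A := by
    rintro z ⟨p, hp⟩ z' h hz'
    refine ⟨p.concat h, ?_⟩
    rw [SimpleGraph.Walk.support_concat, List.mem_append,
      List.mem_singleton, not_or]
    exact ⟨hp, hz'.symm⟩
  have hL : ∀ D'' : Cls H c, D'' ≠ D → ∀ z z', (ClsGraph H c D'').Adj z z' → L.Adj z z' := by
    intro D'' hne z z' h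
    rw [hLadj]
    refine ⟨h.1.1, fun h' => hne ?_⟩
    rw [cls_eq h, ← cls_eq h']
  have hstar : ∀ D'' : Cls H c, D'' ≠ D → ∀ z ∈ A, Inc H c z D'' → ∀ z', Inc H c z' D'' →
      z' ≠ w → z' ∈ A := by
    intro D'' hne z hz hiz z' hiz' hz'
    have := class_closed (CG H c D''.1) (hev D''.1) w (hw D''.1)
      {y | y ∈ A ∧ (CG H c D''.1).connectedComponentMk y = D''.2}
      (by
        rintro y ⟨hy, hyc⟩ x hyx hx
        refine ⟨hclL y hy x (hL D'' hne y x ⟨hyx, hyc⟩) hx, ?_⟩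
        rw [← hyc]
        exact (ConnectedComponent.connectedComponentMk_eq_of_adj hyx).symm)
      z ⟨hz, hiz.2⟩ z' (ConnectedComponent.exact (hiz.2.trans hiz'.2.symm)) hz'
    exact this.1
  have hab : a ≠ b := by
    intro hab
    subst hab
    have := hall SimpleGraph.Walk.nil
    rw [SimpleGraph.Walk.support_nil, List.mem_singleton] at this
    exact haw this.symm
  have hnb : ∀ {x y : V}, L.Reachable x y → x ≠ y → ∃ x', L.Adj x x' := by
    rintro x y ⟨p⟩ hxy
    cases p with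
    | nil => exact absurd rfl hxy
    | cons h _ => exact ⟨_, h⟩
  obtain ⟨a', ha'⟩ := hnb hr hab
  obtain ⟨b', hb'⟩ := hnb hr.symm hab.symm
  rw [hLadj] at ha' hb'
  refine ⟨{D'' | D'' ∈ NT H c ∧ D'' ≠ D ∧ ∃ z, Inc H c z D'' ∧ z ∈ A}, fun D'' h => h.1,
    ⟨⟨c s(a, a'), (CG H c (c s(a, a'))).connectedComponentMk a⟩, ?_, ?_, ?_⟩,
    fun h => h.2.1 rfl,
    ⟨⟨c s(b, b'), (CG H c (c s(b, b'))).connectedComponentMk b⟩, ?_, ?_, ?_⟩, ?_⟩
  · exact ⟨a, inc_of_adj ha'.1⟩
  · exact fun h => ha'.2 (adj_of_eq ha'.1 h)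
  · exact ⟨a, inc_of_adj ha'.1, haA⟩
  · exact ⟨b, inc_of_adj hb'.1⟩
  · rintro ⟨-, hne, z, hz, hzA⟩
    obtain ⟨p, hp⟩ := hstar _ hne z hzA hz b (inc_of_adj hb'.1) hbw
    exact hp (hall p)
  · exact fun h => hb'.2 (adj_of_eq hb'.1 h)
  · rintro v D₁ ⟨hD₁, hne₁, z, hz, hzA⟩ D₂ hD₂ hD₂K hne₂ hi₁ hi₂
    by_contra hv
    have hvA := hstar D₁ hne₁ z hzA hz v hi₁ hv
    exact hD₂K ⟨hD₂, hne₂, v, hi₂, hvA⟩

/-- Main lemma: some class outside `X0` (a set with at most one element) has no cut vertex of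
degree two in all colours in the complement. -/
theorem exists_good_class [Fintype V] [Finite κ] (h3 : NoTwoCut H)
    (hev : ∀ i v, Even ((CG H c i).neighborSet v).ncard)
    (X0 : Set (Cls H c)) (hX0 : X0 ⊆ NT H c) (hX1 : X0.Subsingleton)
    (hne : ∃ D ∈ NT H c, D ∉ X0) :
    ∃ D ∈ NT H c, D ∉ X0 ∧ ∀ w, (∀ i, ((CG H c i).neighborSet w).ncard ≤ 2) →
      ¬ CutVertex (H.deleteEdges (ClsGraph H c D).edgeSet) w := by
  by_contra hcon
  push Not at hcon
  have : Finite (Cls H c) := by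
    have : ∀ i, Finite ((CG H c i).ConnectedComponent) := fun i => Quot.finite _
    infer_instance
  refine uncross (NT H c) (Inc H c) X0 hX0 (fun Y e e' hY hY' => no_small_cut h3 hev Y e e' hY hY')
    hne ?_
  intro D hD hDX
  obtain ⟨w, hw, hcut⟩ := hcon D hD hDX
  obtain ⟨K, hKN, hKne, hDK, hR, hK⟩ := bad_of_cut hev D w hw hcut
  by_cases hy : ∃ y ∈ K, y ∈ X0
  · obtain ⟨y, hyK, hyX⟩ := hy
    refine ⟨w, {A | A ∈ NT H c ∧ A ∉ K ∧ A ≠ D}, fun A hA => hA.1, ?_, fun h => h.2.2 rfl,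
      ?_, ?_, ?_⟩
    · obtain ⟨A, hA, hAK, hAD⟩ := hR
      exact ⟨A, hA, hAK, hAD⟩
    · rintro A ⟨-, hAK, -⟩ hAX
      exact hAK ((hX1 hAX hyX) ▸ hyK)
    · exact ⟨y, hKN hyK, fun h => h.2.1 hyK, fun h => hDK (h ▸ hyK)⟩
    · intro v A hA B hB hBn hBD hiA hiB
      have hBK : B ∈ K := by
        by_contra h
        exact hBn ⟨hB, h, hBD⟩
      exact hK v B hBK A hA.1 hA.2.1 hA.2.2 hiB hiA
  · push Not at hy
    exact ⟨w, K, hKN, hKne, hDK, hy, hR, hK⟩

end Classes

end Pool.Agent.MP_1fb45e
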