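import Mathlib
import Pool.Agent.MP_1fb45e.Core

set_option autoImplicit false

open SimpleGraph

namespace Pool.Agent.MP_1fb45e

variable {V : Type}

/-- the `i`-th edge of a walk -/
lemma edges_getElem {G : SimpleGraph V} {u v : V} (p : G.Walk u v) (i : ℕ)
    (h : i < p.edges.length) : p.edges[i] = s(p.getVert i, p.getVert (i + 1)) := by
  induction p generalizing i with
  | nil => simp at h
  | @cons x x' y hxx q ih =>
    cases i with
    | zero => simp
    | succ j =>
      have hj : j < q.edges.length := by
        simpa using h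
      simp only [SimpleGraph.Walk.edges_cons, List.getElem_cons_succ,
        SimpleGraph.Walk.getVert_cons_succ]
      exact ih j hj

/-- A class all of whose vertices have degree two is traversed by a cycle of `H`. -/
theorem exists_cycle_of_class [Fintype V] {κ : Type} {H : SimpleGraph V} {c : Sym2 V → κ}
    (D : Cls H c) (hD : D ∈ NT H c)
    (h2 : ∀ v, Inc H c v D → ((CG H c D.1).neighborSet v).ncard = 2) :
    ∃ (u : V) (p : H.Walk u u), p.IsCycle ∧
      (∀ e, e ∈ p.edges ↔ e ∈ (ClsGraph H c D).edgeSet) ∧ (∀ v ∈ p.support, Inc H c v D) := by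
  classical
  set L := ClsGraph H c D with hL
  have hnb : ∀ v, (CG H c D.1).connectedComponentMk v = D.2 →
      L.neighborSet v = (CG H c D.1).neighborSet v := by
    intro v hv
    ext b
    exact ⟨fun h => h.1, fun h => ⟨h, hv⟩⟩
  have hcyc : L.IsCycles := by
    intro v hv
    obtain ⟨b, hb⟩ := hv
    rw [hnb v hb.2]
    exact h2 v ⟨⟨b, hb.1⟩, hb.2⟩
  obtain ⟨u, ⟨b, hb⟩, hu⟩ := hD
  have hub : L.Adj u b := ⟨hb, hu⟩
  obtain ⟨p, hp, hverts⟩ :=
    hcyc.exists_cycle_toSubgraph_verts_eq_connectedComponentSupp
      (c := L.connectedComponentMk u) (v := u) rfl ⟨b, hub⟩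
  have hreach : ∀ {x y : V}, (CG H c D.1).Walk x y → (CG H c D.1).connectedComponentMk x = D.2 →
      L.Reachable x y := by
    intro x y q
    induction q with
    | nil => exact fun _ => SimpleGraph.Reachable.refl _
    | cons h _ ih =>
      intro hx
      have hadj : L.Adj _ _ := (⟨h, hx⟩ : (ClsGraph H c D).Adj _ _)
      refine hadj.reachable.trans (ih ?_)
      rw [← hx]
      exact (ConnectedComponent.connectedComponentMk_eq_of_adj h).symm
  have hedge : ∀ e, e ∈ p.edges ↔ e ∈ L.edgeSet := by
    intro e
    refine ⟨fun he => p.edges_subset_edgeSet he, fun he => ?_⟩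
    induction e using Sym2.ind with
    | _ x y =>
      rw [SimpleGraph.mem_edgeSet] at he
      have hx : (CG H c D.1).connectedComponentMk x = D.2 := he.2
      obtain ⟨q⟩ : (CG H c D.1).Reachable u x := ConnectedComponent.exact (hu.trans hx.symm)
      have hxu : L.Reachable u x := hreach q hu
      have hxv : x ∈ p.toSubgraph.verts := by
        rw [hverts]
        exact (ConnectedComponent.eq.mpr hxu.symm)
      have := (hp.adj_toSubgraph_iff_of_isCycles hcyc hxv y).mpr he
      rw [← SimpleGraph.Walk.mem_edges_toSubgraph]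
      exact this
  have hle : L ≤ H := fun x y h => h.1.1
  refine ⟨u, p.mapLe hle, hp.mapLe hle, ?_, ?_⟩
  · intro e
    rw [SimpleGraph.Walk.edges_mapLe_eq_edges]
    exact hedge e
  · intro v hv
    rw [SimpleGraph.Walk.support_mapLe_eq_support] at hv
    have hv' : v ∈ p.toSubgraph.verts := p.mem_verts_toSubgraph.mpr hv
    have hn := hp.ncard_neighborSet_toSubgraph_eq_two hv
    have hne : (p.toSubgraph.neighborSet v).Nonempty := by
      rw [← Set.ncard_pos (Set.toFinite _), hn]; norm_num
    obtain ⟨x, hx⟩ := hne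
    have hadj : L.Adj v x := p.toSubgraph.adj_sub hx
    exact ⟨⟨x, hadj.1⟩, hadj.2⟩

/-- Local alternation along a cycle gives the global alternation. -/
theorem alternating_of_local {H : SimpleGraph V} {u : V} (p : H.Walk u u) (hp : p.IsCycle)
    (R : Set (Sym2 V))
    (hloc : ∀ a b b', s(a, b) ∈ p.edges → s(a, b') ∈ p.edges → b ≠ b' →
      (s(a, b) ∈ R ↔ s(a, b') ∉ R)) :
    Even p.length ∧
      ((∀ (i : ℕ) (h : i < p.edges.length), (p.edges[i]'h ∈ R ↔ Even i)) ∨
       (∀ (i : ℕ) (h : i < p.edges.length), (p.edges[i]'h ∈ R ↔ ¬ Even i))) := by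
  have hlen : p.edges.length = p.length := p.length_edges
  have h3 := hp.three_le_length
  have hnd : p.edges.Nodup := hp.edges_nodup
  have hmem : ∀ i (h : i < p.edges.length), s(p.getVert i, p.getVert (i + 1)) ∈ p.edges := by
    intro i h
    rw [← edges_getElem p i h]
    exact List.getElem_mem h
  have hdist : ∀ i j (hi : i < p.edges.length) (hj : j < p.edges.length), i ≠ j →
      s(p.getVert i, p.getVert (i + 1)) ≠ s(p.getVert j, p.getVert (j + 1)) := by
    intro i j hi hj hij h
    rw [← edges_getElem p i hi, ← edges_getElem p j hj] at h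
    exact hij ((hnd.getElem_inj_iff).mp h)
  have hstep : ∀ i (hi : i + 1 < p.edges.length),
      (p.edges[i + 1]'hi ∈ R ↔ p.edges[i]'(by omega) ∉ R) := by
    intro i hi
    have hi' : i < p.edges.length := by omega
    rw [edges_getElem p i hi', edges_getElem p (i + 1) hi]
    have h1 := hmem i hi'
    have h2 := hmem (i + 1) hi
    have hne := hdist i (i + 1) hi' hi (by omega)
    rw [Sym2.eq_swap] at h1
    have hbb : p.getVert (i + 1 + 1) ≠ p.getVert i := by
      intro h
      apply hne
      rw [h, Sym2.eq_swap]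
    have := hloc _ _ _ h2 h1 hbb
    rw [this, Sym2.eq_swap]
  have hind : ∀ i (hi : i < p.edges.length),
      (p.edges[i]'hi ∈ R ↔ (Even i ↔ p.edges[0]'(by omega) ∈ R)) := by
    intro i
    induction i with
    | zero => intro hi; simp
    | succ j ih =>
      intro hi
      rw [hstep j hi, ih (by omega), Nat.even_add_one]
      tauto
  have hlast : (p.edges[0]'(by omega) ∈ R ↔ p.edges[p.length - 1]'(by omega) ∉ R) := by
    have h0 : 0 < p.edges.length := by omega
    have hl : p.length - 1 < p.edges.length := by omega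
    rw [edges_getElem p 0 h0, edges_getElem p (p.length - 1) hl]
    have h1 := hmem 0 h0
    have h2 := hmem (p.length - 1) hl
    have hne := hdist 0 (p.length - 1) h0 hl (by omega)
    have he : p.length - 1 + 1 = p.length := by omega
    rw [he, SimpleGraph.Walk.getVert_length] at h2 hne ⊢
    rw [SimpleGraph.Walk.getVert_zero] at h1 hne ⊢
    rw [Sym2.eq_swap] at h2
    have hbb : p.getVert (0 + 1) ≠ p.getVert (p.length - 1) := by
      intro h
      apply hne
      rw [h, Sym2.eq_swap]
    have := hloc _ _ _ h1 h2 hbb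
    rw [this, Sym2.eq_swap]
  have heven : Even p.length := by
    have h1 := hind (p.length - 1) (by omega)
    by_contra hodd
    have he : Even (p.length - 1) := by
      rw [Nat.not_even_iff_odd] at hodd
      obtain ⟨k, hk⟩ := hodd
      exact ⟨k, by omega⟩
    tauto
  refine ⟨heven, ?_⟩
  by_cases h0 : p.edges[0]'(by omega) ∈ R
  · left
    intro i hi
    rw [hind i hi]; tauto
  · right
    intro i hi
    rw [hind i hi]; tauto

end Pool.Agent.MP_1fb45e
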