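import Mathlib
import Pool.Agent.MP_1fb45e.Cyc

set_option autoImplicit false

open SimpleGraph

namespace Pool.Agent.MP_1fb45e

variable {V : Type}

/-- The three colours of the edges at `v` and the extra colour `m` (the colour of the edge
obtained by splitting `v`) form a proper colouring at both halves of the split vertex. -/
def ProperAt (H : SimpleGraph V) (R : Set (Sym2 V)) (c : Sym2 V → Fin 3) (m : Fin 3) (v : V) :
    Prop :=
  ∀ w, H.Adj v w → c s(v, w) ≠ m ∧
    ∀ w', H.Adj v w' → w ≠ w' → (s(v, w) ∈ R ↔ s(v, w') ∈ R) → c s(v, w) ≠ c s(v, w')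

lemma fin3_aux : ∀ α β μ i : Fin 3, α ≠ β → α ≠ μ → β ≠ μ → i ≠ μ →
    (α = i ∧ β ≠ i) ∨ (α ≠ i ∧ β = i) := by decide

/-- At a properly coloured vertex each colour class has degree `0` or `2` and alternates. -/
lemma proper_deg (H : SimpleGraph V) (R : Set (Sym2 V)) (c : Sym2 V → Fin 3) (m : Fin 3) (v : V)
    (hp : ProperAt H R c m v)
    (hR : {w | H.Adj v w ∧ s(v, w) ∈ R}.ncard = 2)
    (hB : {w | H.Adj v w ∧ s(v, w) ∉ R}.ncard = 2) (i : Fin 3) :
    (i = m → ((CG H c i).neighborSet v).ncard = 0) ∧
    (i ≠ m → ((CG H c i).neighborSet v).ncard = 2) ∧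
    (∀ w w', (CG H c i).Adj v w → (CG H c i).Adj v w' → w ≠ w' →
      (s(v, w) ∈ R ↔ s(v, w') ∉ R)) := by
  refine ⟨?_, ?_, ?_⟩
  · intro hi
    have : (CG H c i).neighborSet v = ∅ := by
      ext w
      simp only [SimpleGraph.mem_neighborSet, Set.mem_empty_iff_false, iff_false]
      intro h
      exact (hp w h.1).1 (h.2.trans hi)
    rw [this, Set.ncard_empty]
  · intro hi
    obtain ⟨a, b, hab, hRab⟩ := Set.ncard_eq_two.mp hR
    obtain ⟨x, y, hxy, hBxy⟩ := Set.ncard_eq_two.mp hB
    have ha : H.Adj v a ∧ s(v, a) ∈ R := by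
      have : a ∈ ({a, b} : Set V) := by simp
      rw [← hRab] at this; exact this
    have hb : H.Adj v b ∧ s(v, b) ∈ R := by
      have : b ∈ ({a, b} : Set V) := by simp
      rw [← hRab] at this; exact this
    have hx : H.Adj v x ∧ s(v, x) ∉ R := by
      have : x ∈ ({x, y} : Set V) := by simp
      rw [← hBxy] at this; exact this
    have hy : H.Adj v y ∧ s(v, y) ∉ R := by
      have : y ∈ ({x, y} : Set V) := by simp
      rw [← hBxy] at this; exact this
    have hall : ∀ w, H.Adj v w → w = a ∨ w = b ∨ w = x ∨ w = y := by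
      intro w hw
      by_cases hwR : s(v, w) ∈ R
      · have : w ∈ ({a, b} : Set V) := by rw [← hRab]; exact ⟨hw, hwR⟩
        rcases this with h | h
        · exact Or.inl h
        · exact Or.inr (Or.inl h)
      · have : w ∈ ({x, y} : Set V) := by rw [← hBxy]; exact ⟨hw, hwR⟩
        rcases this with h | h
        · exact Or.inr (Or.inr (Or.inl h))
        · exact Or.inr (Or.inr (Or.inr h))
    have hax : a ≠ x := fun h => hx.2 (h ▸ ha.2)
    have hay : a ≠ y := fun h => hy.2 (h ▸ ha.2)
    have hbx : b ≠ x := fun h => hx.2 (h ▸ hb.2)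
    have hby : b ≠ y := fun h => hy.2 (h ▸ hb.2)
    have h1 := fin3_aux (c s(v, a)) (c s(v, b)) m i
      ((hp a ha.1).2 b hb.1 hab (by simp [ha.2, hb.2])) (hp a ha.1).1 (hp b hb.1).1 hi
    have h2 := fin3_aux (c s(v, x)) (c s(v, y)) m i
      ((hp x hx.1).2 y hy.1 hxy (by simp [hx.2, hy.2])) (hp x hx.1).1 (hp y hy.1).1 hi
    have hset : ∀ p q : V, p ≠ q → H.Adj v p → H.Adj v q → c s(v, p) = i → c s(v, q) = i →
        (∀ w, H.Adj v w → c s(v, w) = i → w = p ∨ w = q) →
        ((CG H c i).neighborSet v).ncard = 2 := by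
      intro p q hpq hvp hvq hcp hcq hw
      have : (CG H c i).neighborSet v = {p, q} := by
        ext w
        simp only [SimpleGraph.mem_neighborSet, Set.mem_insert_iff, Set.mem_singleton_iff]
        constructor
        · exact fun h => hw w h.1 h.2
        · rintro (h | h)
          · exact h ▸ ⟨hvp, hcp⟩
          · exact h ▸ ⟨hvq, hcq⟩
      rw [this, Set.ncard_pair hpq]
    rcases h1 with ⟨h1, h1'⟩ | ⟨h1', h1⟩ <;> rcases h2 with ⟨h2, h2'⟩ | ⟨h2', h2⟩
    · refine hset a x hax ha.1 hx.1 h1 h2 fun w hw hcw => ?_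
      rcases hall w hw with h | h | h | h
      · exact Or.inl h
      · exact absurd (h ▸ hcw) h1'
      · exact Or.inr h
      · exact absurd (h ▸ hcw) h2'
    · refine hset a y hay ha.1 hy.1 h1 h2 fun w hw hcw => ?_
      rcases hall w hw with h | h | h | h
      · exact Or.inl h
      · exact absurd (h ▸ hcw) h1'
      · exact absurd (h ▸ hcw) h2'
      · exact Or.inr h
    · refine hset b x hbx hb.1 hx.1 h1 h2 fun w hw hcw => ?_
      rcases hall w hw with h | h | h | h
      · exact absurd (h ▸ hcw) h1'
      · exact Or.inl h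
      · exact Or.inr h
      · exact absurd (h ▸ hcw) h2'
    · refine hset b y hby hb.1 hy.1 h1 h2 fun w hw hcw => ?_
      rcases hall w hw with h | h | h | h
      · exact absurd (h ▸ hcw) h1'
      · exact Or.inl h
      · exact absurd (h ▸ hcw) h2'
      · exact Or.inr h
  · intro w w' hw hw' hne
    constructor
    · intro hwR hwR'
      exact (hp w hw.1).2 w' hw'.1 hne (by simp [hwR, hwR']) (hw.2.trans hw'.2.symm)
    · intro hwR'
      by_contra hwR
      exact (hp w hw.1).2 w' hw'.1 hne (by simp [hwR, hwR']) (hw.2.trans hw'.2.symm)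

/-- index parity of the edges along a cycle: two edges at a vertex -/
lemma idx_parity [DecidableEq V] {H : SimpleGraph V} {x : V} (p : H.Walk x x) (hp : p.IsCycle)
    (v w w' : V) (hv : v ≠ x ∨ Even p.length) (hw : s(v, w) ∈ p.edges) (hw' : s(v, w') ∈ p.edges)
    (hne : w ≠ w') : (Even (p.edges.idxOf s(v, w)) ↔ ¬ Even (p.edges.idxOf s(v, w'))) := by
  have hlen : p.edges.length = p.length := p.length_edges
  have h3 := hp.three_le_length
  set i := p.edges.idxOf s(v, w) with hi
  set j := p.edges.idxOf s(v, w') with hj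
  have hil : i < p.edges.length := List.idxOf_lt_length_iff.mpr hw
  have hjl : j < p.edges.length := List.idxOf_lt_length_iff.mpr hw'
  have hei : p.edges[i] = s(v, w) := List.getElem_idxOf hil
  have hej : p.edges[j] = s(v, w') := List.getElem_idxOf hjl
  have hij : i ≠ j := by
    intro h
    have : s(v, w) = s(v, w') := by
      rw [← hei, ← hej]
      congr 1
    rw [Sym2.congr_right] at this
    exact hne this
  rw [edges_getElem] at hei hej
  have hvi : v = p.getVert i ∨ v = p.getVert (i + 1) := by
    have : v ∈ s(p.getVert i, p.getVert (i + 1)) := by rw [hei]; exact Sym2.mem_mk_left v w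
    simpa using this
  have hvj : v = p.getVert j ∨ v = p.getVert (j + 1) := by
    have : v ∈ s(p.getVert j, p.getVert (j + 1)) := by rw [hej]; exact Sym2.mem_mk_left v w'
    simpa using this
  have hcase : ∀ a b : ℕ, a < p.edges.length → b < p.edges.length → v = p.getVert a →
      v = p.getVert (b + 1) → (Even a ↔ ¬ Even b) := by
    intro a b ha hb hva hvb
    by_cases ha0 : a = 0
    · subst ha0
      rw [SimpleGraph.Walk.getVert_zero] at hva
      have : p.getVert (b + 1) = x := by rw [← hvb, hva]
      rw [hp.getVert_endpoint_iff (by omega)] at this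
      have hb' : b + 1 = p.length := by omega
      rcases hv with hv | hv
      · exact absurd hva hv
      · have : ¬ Even b := by
          rw [← hb', Nat.even_add_one] at hv
          exact hv
        simp [this]
    · have : a = b + 1 := hp.getVert_injOn
        (by rw [Set.mem_ofPred]; omega) (by rw [Set.mem_ofPred]; omega) (hva.symm.trans hvb)
      rw [this, Nat.even_add_one]
  rcases hvi with hvi | hvi <;> rcases hvj with hvj | hvj
  · exact absurd (hp.getVert_injOn' (by rw [Set.mem_ofPred]; omega)
      (by rw [Set.mem_ofPred]; omega) (hvi.symm.trans hvj)) hij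
  · exact hcase i j hil hjl hvi hvj
  · have := hcase j i hjl hil hvj hvi
    tauto
  · have := hp.getVert_injOn (by rw [Set.mem_ofPred]; omega)
      (by rw [Set.mem_ofPred]; omega) (hvi.symm.trans hvj)
    omega

/-- index parity at the base vertex of an odd cycle -/
lemma idx_root [DecidableEq V] {H : SimpleGraph V} {x : V} (p : H.Walk x x) (hp : p.IsCycle)
    (w : V) (hodd : Odd p.length) (hw : s(x, w) ∈ p.edges) : Even (p.edges.idxOf s(x, w)) := by
  have hlen : p.edges.length = p.length := p.length_edges
  have h3 := hp.three_le_length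
  set i := p.edges.idxOf s(x, w) with hi
  have hil : i < p.edges.length := List.idxOf_lt_length_iff.mpr hw
  have hei : p.edges[i] = s(x, w) := List.getElem_idxOf hil
  rw [edges_getElem] at hei
  have hvi : x = p.getVert i ∨ x = p.getVert (i + 1) := by
    have : x ∈ s(p.getVert i, p.getVert (i + 1)) := by rw [hei]; exact Sym2.mem_mk_left x w
    simpa using this
  rcases hvi with hvi | hvi
  · have := (hp.getVert_endpoint_iff (by omega : i ≤ p.length)).mp hvi.symm
    have hi0 : i = 0 := by omega
    rw [hi0]; exact Even.zero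
  · have := (hp.getVert_endpoint_iff (by omega : i + 1 ≤ p.length)).mp hvi.symm
    obtain ⟨k, hk⟩ := hodd
    exact ⟨k, by omega⟩

end Pool.Agent.MP_1fb45e
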