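import Mathlib
import Pool.Agent.MP_1fb45e.Colour

set_option autoImplicit false

open SimpleGraph

namespace Pool.Agent.MP_1fb45e

variable {V : Type}

/-- `H - {u, v}` is connected for any two vertices `u`, `v` (possibly equal). -/
def IsThreeConnected (H : SimpleGraph V) : Prop :=
  ∀ u v a b : V, a ≠ u → a ≠ v → b ≠ u → b ≠ v →
    ∃ p : H.Walk a b, u ∉ p.support ∧ v ∉ p.support

/-- `w` is a cut-vertex of `G`: some `a`, `b` in the same component of `G`, different from `w`,
are separated by `w`. -/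
def IsCutVertex (G : SimpleGraph V) (w : V) : Prop :=
  ∃ a b : V, a ≠ w ∧ b ≠ w ∧ G.Reachable a b ∧ ∀ p : G.Walk a b, w ∈ p.support

/-- The closed walk `D` is an alternating circuit with respect to the edges of `C`
and the remaining edges. -/
def IsAlternatingCircuit {H : SimpleGraph V} {x u : V} (C : H.Walk x x) (D : H.Walk u u) : Prop :=
  D.IsCycle ∧ Even D.length ∧
    ((∀ (i : ℕ) (h : i < D.edges.length), (D.edges[i]'h ∈ C.edges ↔ Even i)) ∨
     (∀ (i : ℕ) (h : i < D.edges.length), (D.edges[i]'h ∈ C.edges ↔ ¬ Even i)))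

/-- The cubic graph obtained from `H` by splitting every vertex `v` into two vertices, one
incident with the two edges of `C` at `v` and the other one with the two other edges at `v`,
joined by a new edge `e_v`, is `3`-edge-colourable; `c` colours the edges of `H` and `m v` is
the colour of `e_v`. -/
def SplitColourable {H : SimpleGraph V} {x : V} (C : H.Walk x x) : Prop :=
  ∃ (c : Sym2 V → Fin 3) (m : V → Fin 3), ∀ v w : V, H.Adj v w → c s(v, w) ≠ m v ∧
    ∀ w', H.Adj v w' → w ≠ w' → (s(v, w) ∈ C.edges ↔ s(v, w') ∈ C.edges) →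
      c s(v, w) ≠ c s(v, w')

lemma two_nbrs {H : SimpleGraph V} {x : V} (C : H.Walk x x)
    (hC : C.IsCycle) (v : V) (hv : v ∈ C.support) :
    {w | H.Adj v w ∧ s(v, w) ∈ C.edges}.ncard = 2 := by
  have : {w | H.Adj v w ∧ s(v, w) ∈ C.edges} = C.toSubgraph.neighborSet v := by
    ext w
    simp only [Set.mem_ofPred_eq, SimpleGraph.Subgraph.mem_neighborSet]
    rw [← SimpleGraph.Walk.mem_edges_toSubgraph]
    constructor
    · exact fun h => h.2
    · intro h
      exact ⟨C.toSubgraph.adj_sub h, h⟩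
  rw [this]
  exact hC.ncard_neighborSet_toSubgraph_eq_two hv

/-- from a good class to a good alternating circuit -/
lemma finish [Fintype V] {H : SimpleGraph V} {x : V} (C : H.Walk x x) {c : Sym2 V → Fin 3}
    (D : Cls H c) (hD : D ∈ NT H c)
    (h2 : ∀ v, Inc H c v D → ((CG H c D.1).neighborSet v).ncard = 2)
    (halt : ∀ v, Inc H c v D → ∀ w w', (CG H c D.1).Adj v w → (CG H c D.1).Adj v w' → w ≠ w' →
      (s(v, w) ∈ {e | e ∈ C.edges} ↔ s(v, w') ∉ {e | e ∈ C.edges}))
    (P : V → Prop)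
    (hcut : ∀ w, P w → ¬ CutVertex (H.deleteEdges (ClsGraph H c D).edgeSet) w) :
    ∃ (u : V) (p : H.Walk u u), IsAlternatingCircuit C p ∧ (∀ v ∈ p.support, Inc H c v D) ∧
      ∀ w, P w → ¬ IsCutVertex (H.deleteEdges {e | e ∈ p.edges}) w := by
  obtain ⟨u, p, hp, hedges, hsupp⟩ := exists_cycle_of_class D hD h2
  have hset : {e | e ∈ p.edges} = (ClsGraph H c D).edgeSet := by
    ext e
    exact hedges e
  obtain ⟨heven, haltp⟩ := alternating_of_local p hp {e | e ∈ C.edges} (by
    intro a b b' hab hab' hne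
    rw [hedges, SimpleGraph.mem_edgeSet] at hab hab'
    exact halt a ⟨⟨b, hab.1⟩, hab.2⟩ b b' hab.1 hab'.1 hne)
  refine ⟨u, p, ⟨hp, heven, ?_⟩, hsupp, ?_⟩
  · exact haltp
  · intro w hw
    rw [hset]
    exact hcut w hw

/-- the colourable case -/
theorem colourable_case [Fintype V] {H : SimpleGraph V} {x : V} (C : H.Walk x x)
    (h3 : IsThreeConnected H) (hex : ∃ a b : V, H.Adj a b)
    (hR : ∀ v, {w | H.Adj v w ∧ s(v, w) ∈ C.edges}.ncard = 2)
    (hB : ∀ v, {w | H.Adj v w ∧ s(v, w) ∉ C.edges}.ncard = 2)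
    (hcol : SplitColourable C) :
    ∃ (u : V) (D : H.Walk u u), IsAlternatingCircuit C D ∧
      ∀ w, ¬ IsCutVertex (H.deleteEdges {e | e ∈ D.edges}) w := by
  obtain ⟨c, m, hcm⟩ := hcol
  have hdeg := fun (v : V) (i : Fin 3) =>
    proper_deg H {e | e ∈ C.edges} c (m v) v (fun w hw => hcm v w hw) (hR v) (hB v) i
  have hev : ∀ i v, Even ((CG H c i).neighborSet v).ncard := by
    intro i v
    by_cases hi : i = m v
    · rw [(hdeg v i).1 hi]; exact Even.zero
    · rw [(hdeg v i).2.1 hi]; exact even_two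
  obtain ⟨a, b, hab⟩ := hex
  obtain ⟨D, hD, -, hcut⟩ := exists_good_class (c := c) h3 hev ∅ (Set.empty_subset _)
    Set.subsingleton_empty ⟨_, ⟨a, inc_of_adj hab⟩, Set.notMem_empty _⟩
  have hle : ∀ w i, ((CG H c i).neighborSet w).ncard ≤ 2 := by
    intro w i
    by_cases hi : i = m w
    · rw [(hdeg w i).1 hi]; norm_num
    · rw [(hdeg w i).2.1 hi]
  obtain ⟨u, p, h1, -, h2⟩ := finish C D hD
    (by
      intro v hv
      by_cases hi : D.1 = m v
      · exfalso
        obtain ⟨⟨w, hw⟩, -⟩ := hv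
        exact (hcm v w hw.1).1 (hw.2.trans hi)
      · exact (hdeg v D.1).2.1 hi)
    (fun v _ => (hdeg v D.1).2.2) (fun _ => True) (fun w _ => hcut w (hle w))
  exact ⟨u, p, h1, fun w => h2 w trivial⟩

/-- the basic degree facts -/
lemma basic_facts [Fintype V] [DecidableEq V] (H : SimpleGraph V) [DecidableRel H.Adj]
    (hreg : H.IsRegularOfDegree 4) {x y : V} (C₁ : H.Walk x x) (C₂ : H.Walk y y)
    (hC₁ : C₁.IsHamiltonianCycle) (hC₂ : C₂.IsHamiltonianCycle)
    (hdec : ∀ e ∈ H.edgeSet, (e ∈ C₁.edges ↔ e ∉ C₂.edges)) :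
    (∀ v, {w | H.Adj v w ∧ s(v, w) ∈ C₁.edges}.ncard = 2) ∧
    (∀ v, {w | H.Adj v w ∧ s(v, w) ∉ C₁.edges}.ncard = 2) ∧ (∀ v, ∃ w, H.Adj v w) := by
  have hR : ∀ v, {w | H.Adj v w ∧ s(v, w) ∈ C₁.edges}.ncard = 2 := fun v =>
    two_nbrs C₁ hC₁.isCycle v (hC₁.mem_support v)
  have hB2 : ∀ v, {w | H.Adj v w ∧ s(v, w) ∈ C₂.edges}.ncard = 2 := fun v =>
    two_nbrs C₂ hC₂.isCycle v (hC₂.mem_support v)
  have hB : ∀ v, {w | H.Adj v w ∧ s(v, w) ∉ C₁.edges}.ncard = 2 := by
    intro v
    have : {w | H.Adj v w ∧ s(v, w) ∉ C₁.edges} = {w | H.Adj v w ∧ s(v, w) ∈ C₂.edges} := by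
      ext w
      simp only [Set.mem_ofPred_eq]
      constructor
      · rintro ⟨h, h'⟩
        refine ⟨h, ?_⟩
        by_contra h''
        exact h' ((hdec s(v, w) h).mpr h'')
      · rintro ⟨h, h'⟩
        exact ⟨h, fun h'' => (hdec s(v, w) h).mp h'' h'⟩
    rw [this]; exact hB2 v
  have hnb : ∀ v, ∃ w, H.Adj v w := by
    intro v
    have : 0 < H.degree v := by rw [hreg v]; norm_num
    rw [SimpleGraph.degree_pos_iff_exists_adj] at this
    exact this
  exact ⟨hR, hB, hnb⟩

/-- the colouring with base point `z` -/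
lemma colouring_at [Fintype V] [DecidableEq V] (H : SimpleGraph V) {x y : V} (C₁ : H.Walk x x)
    (C₂ : H.Walk y y) (hC₁ : C₁.IsHamiltonianCycle) (hC₂ : C₂.IsHamiltonianCycle)
    (hdec : ∀ e ∈ H.edgeSet, (e ∈ C₁.edges ↔ e ∉ C₂.edges)) (z : V) :
    ∃ c : Sym2 V → Fin 3,
      (∀ v, (v ≠ z ∨ Even (Fintype.card V)) → ProperAt H {e | e ∈ C₁.edges} c 2 v) ∧
      (Odd (Fintype.card V) → ∀ w, H.Adj z w → c s(z, w) = 0) ∧
      (∃ a b, H.Adj a b ∧ c s(a, b) = 1) := by
  have hz1 := hC₁.mem_support z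
  have hz2 := hC₂.mem_support z
  set P₁ := C₁.rotate z hz1 with hP₁
  set P₂ := C₂.rotate z hz2 with hP₂
  have hP₁c : P₁.IsCycle := hC₁.isCycle.rotate hz1
  have hP₂c : P₂.IsCycle := hC₂.isCycle.rotate hz2
  have he1 : ∀ e, e ∈ P₁.edges ↔ e ∈ C₁.edges := fun e => (C₁.rotate_edges z hz1).mem_iff
  have he2 : ∀ e, e ∈ P₂.edges ↔ e ∈ C₂.edges := fun e => (C₂.rotate_edges z hz2).mem_iff
  have hl1 : P₁.length = Fintype.card V := by
    rw [← hC₁.length_eq, ← P₁.length_edges, ← C₁.length_edges]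
    exact (C₁.rotate_edges z hz1).perm.length_eq
  have hl2 : P₂.length = Fintype.card V := by
    rw [← hC₂.length_eq, ← P₂.length_edges, ← C₂.length_edges]
    exact (C₂.rotate_edges z hz2).perm.length_eq
  classical
  refine ⟨fun e => if e ∈ C₁.edges then (if Even (P₁.edges.idxOf e) then 0 else 1)
    else (if Even (P₂.edges.idxOf e) then 0 else 1), ?_, ?_, ?_⟩
  · intro v hv w hw
    refine ⟨?_, ?_⟩
    · dsimp only
      split_ifs <;> decide
    · intro w' hw' hne hiff
      simp only [Set.mem_ofPred_eq] at hiff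
      dsimp only
      by_cases hR1 : s(v, w) ∈ C₁.edges
      · have hR2 := hiff.mp hR1
        rw [if_pos hR1, if_pos hR2]
        have := idx_parity P₁ hP₁c v w w' (by rw [hl1]; exact hv) ((he1 _).mpr hR1)
          ((he1 _).mpr hR2) hne
        by_cases hE : Even (P₁.edges.idxOf s(v, w))
        · rw [if_pos hE, if_neg (this.mp hE)]; decide
        · have hE' : Even (P₁.edges.idxOf s(v, w')) := by
            by_contra h; exact hE (this.mpr h)
          rw [if_neg hE, if_pos hE']; decide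
      · have hR2 : s(v, w') ∉ C₁.edges := fun h => hR1 (hiff.mpr h)
        rw [if_neg hR1, if_neg hR2]
        have hb1 : s(v, w) ∈ C₂.edges := by
          by_contra h; exact hR1 ((hdec s(v, w) hw).mpr h)
        have hb2 : s(v, w') ∈ C₂.edges := by
          by_contra h; exact hR2 ((hdec s(v, w') hw').mpr h)
        have := idx_parity P₂ hP₂c v w w' (by rw [hl2]; exact hv) ((he2 _).mpr hb1)
          ((he2 _).mpr hb2) hne
        by_cases hE : Even (P₂.edges.idxOf s(v, w))
        · rw [if_pos hE, if_neg (this.mp hE)]; decide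
        · have hE' : Even (P₂.edges.idxOf s(v, w')) := by
            by_contra h; exact hE (this.mpr h)
          rw [if_neg hE, if_pos hE']; decide
  · intro hodd w hw
    dsimp only
    by_cases hR1 : s(z, w) ∈ C₁.edges
    · rw [if_pos hR1, if_pos (idx_root P₁ hP₁c w (by rw [hl1]; exact hodd) ((he1 _).mpr hR1))]
    · have hb1 : s(z, w) ∈ C₂.edges := by
        by_contra h; exact hR1 ((hdec s(z, w) hw).mpr h)
      rw [if_neg hR1, if_pos (idx_root P₂ hP₂c w (by rw [hl2]; exact hodd) ((he2 _).mpr hb1))]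
  · have h3l := hP₁c.three_le_length
    have h1 : 1 < P₁.edges.length := by rw [P₁.length_edges]; omega
    have hmem : P₁.edges[1] ∈ P₁.edges := List.getElem_mem h1
    have hidx : P₁.edges.idxOf (P₁.edges[1]) = 1 := hP₁c.edges_nodup.idxOf_getElem 1 h1
    have hC : P₁.edges[1] ∈ C₁.edges := (he1 _).mp hmem
    have hadj : P₁.edges[1] ∈ H.edgeSet := P₁.edges_subset_edgeSet hmem
    rw [edges_getElem P₁ 1 h1] at hidx hC hadj
    refine ⟨P₁.getVert 1, P₁.getVert (1 + 1), hadj, ?_⟩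
    dsimp only
    rw [if_pos hC, hidx, if_neg (by decide)]


end Pool.Agent.MP_1fb45e
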